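import Pool.Agent.P.MP_eab1c6_co.Count

/-!
`sat(n,m,J_s) = ex(n,m,J_s) = sat*([n] × [m], ∨_s) = La*([n] × [m], ∨_s)`.
A 0-1 matrix is given by the set of positions of its 1-entries.
-/

namespace Pool.Agent.Results.MP_eab1c6_co.FourEqual

open Pool.Agent.P.MP_eab1c6_co

/-- The 0-1 matrix `A` contains the 0-1 matrix `M`. -/
def Contains {n m k l : ℕ} (A : Finset (Fin n × Fin m)) (M : Finset (Fin k × Fin l)) : Prop :=
  ∃ (r : Fin k → Fin n) (c : Fin l → Fin m), StrictMono r ∧ StrictMono c ∧
    ∀ p ∈ M, (r p.1, c p.2) ∈ A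

/-- `ex(n, m, M)`. -/
noncomputable def ex (n m : ℕ) {k l : ℕ} (M : Finset (Fin k × Fin l)) : ℕ :=
  sSup {t | ∃ A : Finset (Fin n × Fin m), ¬ Contains A M ∧ A.card = t}

/-- `sat(n, m, M)`. -/
noncomputable def sat (n m : ℕ) {k l : ℕ} (M : Finset (Fin k × Fin l)) : ℕ :=
  sInf {t | ∃ A : Finset (Fin n × Fin m), ¬ Contains A M ∧
    (∀ p, p ∉ A → Contains (insert p A) M) ∧ A.card = t}

/-- `J_s`, with rows and columns numbered from `0`. -/
def J (s : ℕ) : Finset (Fin s × Fin s) :=
  Finset.univ.filter fun p => p.2.val = p.1.val + 1 ∨ (p.1.val + 1 = s ∧ p.2.val = 0)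

/-- `F` contains a strong (induced) copy of the poset `(P, le)`. -/
def HasCopy {P : Type} (le : P → P → Prop) {n m : ℕ} (F : Finset (Fin n × Fin m)) : Prop :=
  ∃ f : P → Fin n × Fin m, Function.Injective f ∧ (∀ p, f p ∈ F) ∧ ∀ p q, le p q ↔ f p ≤ f q

/-- `La*([n] × [m], P)`. -/
noncomputable def laStar (n m : ℕ) {P : Type} (le : P → P → Prop) : ℕ :=
  sSup {t | ∃ F : Finset (Fin n × Fin m), ¬ HasCopy le F ∧ F.card = t}

/-- `sat*([n] × [m], P)`. -/
noncomputable def satStar (n m : ℕ) {P : Type} (le : P → P → Prop) : ℕ :=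
  sInf {t | ∃ F : Finset (Fin n × Fin m), ¬ HasCopy le F ∧
    (∀ x, x ∉ F → HasCopy le (insert x F)) ∧ F.card = t}

/-- The order of `∨_s`: `none` is the element `a`, `some i` is `b_i`. -/
def veeLe (s : ℕ) (p q : Option (Fin s)) : Prop := p = none ∨ p = q

lemma transfer {n m k e : ℕ} (he : e ≤ 1) (hk : 1 ≤ k) (φ : Fin n × Fin m → ℕ × ℕ)
    (hinj : Function.Injective φ)
    (hφ : ∀ x : ℕ × ℕ, x ∈ Finset.range n ×ˢ Finset.range m ↔ ∃ p, φ p = x)
    (Bad : Finset (Fin n × Fin m) → Prop) (hBad : ∀ A, Bad A ↔ ¬ Av e (k + e) (A.image φ)) :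
    sSup {t | ∃ A, ¬ Bad A ∧ A.card = t} = n * m - (n - k) * (m - k) ∧
      sInf {t | ∃ A, ¬ Bad A ∧ (∀ p, p ∉ A → Bad (insert p A)) ∧ A.card = t} =
        n * m - (n - k) * (m - k) := by
  refine sSup_sInf_eq Bad _ ?_ ?_
  · rw [hBad, not_not]
    intro a ha
    simp at ha
  · intro A hA hsat
    rw [← Finset.card_image_of_injective A hinj]
    rw [hBad, not_not] at hA
    refine card_saturated n m k e he hk _ ?_ hA ?_
    · intro x hx
      obtain ⟨p, -, rfl⟩ := Finset.mem_image.1 hx
      exact (hφ _).2 ⟨p, rfl⟩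
    · intro x hx hxA
      obtain ⟨p, rfl⟩ := (hφ x).1 hx
      rw [← Finset.image_insert, ← hBad]
      exact hsat p fun h => hxA (Finset.mem_image_of_mem φ h)

/-- Coordinates for matrices. -/
def phi {n m : ℕ} (p : Fin n × Fin m) : ℕ × ℕ := (p.1.val, m - 1 - p.2.val)

/-- Coordinates for the grid. -/
def psi {n m : ℕ} (p : Fin n × Fin m) : ℕ × ℕ := (n - 1 - p.1.val, m - 1 - p.2.val)

lemma phi_inj {n m : ℕ} : Function.Injective (phi (n := n) (m := m)) := by
  rintro ⟨a, b⟩ ⟨c, d⟩ h
  simp only [phi, Prod.mk.injEq] at h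
  have := b.2
  have := d.2
  exact Prod.ext (Fin.ext h.1) (Fin.ext (by show b.val = d.val; omega))

lemma psi_inj {n m : ℕ} : Function.Injective (psi (n := n) (m := m)) := by
  rintro ⟨a, b⟩ ⟨c, d⟩ h
  simp only [psi, Prod.mk.injEq] at h
  have := a.2
  have := b.2
  have := c.2
  have := d.2
  exact Prod.ext (Fin.ext (by show a.val = c.val; omega)) (Fin.ext (by show b.val = d.val; omega))

lemma phi_range {n m : ℕ} (x : ℕ × ℕ) :
    x ∈ Finset.range n ×ˢ Finset.range m ↔ ∃ p : Fin n × Fin m, phi p = x := by
  simp only [Finset.mem_product, Finset.mem_range]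
  constructor
  · rintro ⟨h1, h2⟩
    refine ⟨(⟨x.1, h1⟩, ⟨m - 1 - x.2, by omega⟩), Prod.ext rfl ?_⟩
    show m - 1 - (m - 1 - x.2) = x.2
    omega
  · rintro ⟨⟨a, b⟩, rfl⟩
    have := b.2
    exact ⟨a.2, by show m - 1 - b.val < m; omega⟩

lemma psi_range {n m : ℕ} (x : ℕ × ℕ) :
    x ∈ Finset.range n ×ˢ Finset.range m ↔ ∃ p : Fin n × Fin m, psi p = x := by
  simp only [Finset.mem_product, Finset.mem_range]
  constructor
  · rintro ⟨h1, h2⟩
    refine ⟨(⟨n - 1 - x.1, by omega⟩, ⟨m - 1 - x.2, by omega⟩), Prod.ext ?_ ?_⟩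
    · show n - 1 - (n - 1 - x.1) = x.1
      omega
    · show m - 1 - (m - 1 - x.2) = x.2
      omega
  · rintro ⟨⟨a, b⟩, rfl⟩
    have := a.2
    have := b.2
    exact ⟨by show n - 1 - a.val < n; omega, by show m - 1 - b.val < m; omega⟩

lemma contains_iff {n m k : ℕ} (A : Finset (Fin n × Fin m)) :
    Contains A (J (k + 1)) ↔ ¬ Av 0 (k + 0) (A.image phi) := by
  unfold Av
  push Not
  constructor
  · rintro ⟨r, c, hr, hc, h⟩
    refine ⟨phi (r (Fin.last k), c 0), Finset.mem_image_of_mem _
      (h (Fin.last k, 0) (by simp [J])), fun x => (r ⟨k - 1 - x, by omega⟩).val,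
      fun x => m - 1 - (c ⟨k - x, by omega⟩).val, ?_, ?_⟩
    · intro x hx
      have h1 : r ⟨k - 1 - x, by omega⟩ < r (Fin.last k) := hr (by
        show k - 1 - x < k
        omega)
      have h2 : c 0 < c ⟨k - x, by omega⟩ := hc (by
        show 0 < k - x
        omega)
      have h3 := (c ⟨k - x, by omega⟩).2
      rw [Fin.lt_def] at h1 h2
      refine ⟨h1, Nat.zero_le _, ?_, Finset.mem_image_of_mem phi
        (h (⟨k - 1 - x, by omega⟩, ⟨k - x, by omega⟩) ?_)⟩
      · show m - 1 - (c ⟨k - x, _⟩).val < m - 1 - (c 0).val + 0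
        omega
      · simp only [J, Finset.mem_filter, Finset.mem_univ, true_and]
        omega
    · intro x y hxy hy
      have h1 : r ⟨k - 1 - y, by omega⟩ < r ⟨k - 1 - x, by omega⟩ := hr (by
        show k - 1 - y < k - 1 - x
        omega)
      have h2 : c ⟨k - y, by omega⟩ < c ⟨k - x, by omega⟩ := hc (by
        show k - y < k - x
        omega)
      have h3 := (c ⟨k - x, by omega⟩).2
      rw [Fin.lt_def] at h1 h2
      exact ⟨h1, by
        show m - 1 - (c ⟨k - x, _⟩).val < m - 1 - (c ⟨k - y, _⟩).val
        omega⟩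
  · rintro ⟨a, ha, rr, cc, h1, h2⟩
    obtain ⟨⟨p1, p2⟩, hp, rfl⟩ := Finset.mem_image.1 ha
    simp only [phi, Nat.add_zero] at h1 h2
    have hp1 := p1.2
    have hp2 := p2.2
    refine ⟨fun i => if h : i.val < k then ⟨rr (k - 1 - i.val), by
        have := (h1 (k - 1 - i.val) (by omega)).1
        omega⟩ else p1,
      fun j => if j.val = 0 then p2 else ⟨m - 1 - cc (k - j.val), by omega⟩, ?_, ?_, ?_⟩
    · intro i j hij
      rw [Fin.lt_def] at hij
      have hj := j.2
      rw [Fin.lt_def]
      simp only [dif_pos (show i.val < k by omega)]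
      by_cases h : j.val < k
      · simp only [dif_pos h]
        exact (h2 (k - 1 - j.val) (k - 1 - i.val) (by omega) (by omega)).1
      · simp only [dif_neg h]
        exact (h1 (k - 1 - i.val) (by omega)).1
    · intro i j hij
      rw [Fin.lt_def] at hij
      have hj := j.2
      rw [Fin.lt_def]
      simp only [if_neg (show j.val ≠ 0 by omega)]
      have g := (h1 (k - j.val) (by omega)).2.2.1
      by_cases h : i.val = 0
      · simp only [if_pos h]
        omega
      · simp only [if_neg h]
        have g1 := (h2 (k - j.val) (k - i.val) (by omega) (by omega)).2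
        have g2 := (h1 (k - i.val) (by omega)).2.2.1
        omega
    · rintro ⟨i, j⟩ hij
      simp only [J, Finset.mem_filter, Finset.mem_univ, true_and] at hij
      have hj := j.2
      rcases hij with h | h
      · simp only [dif_pos (show i.val < k by omega), if_neg (show j.val ≠ 0 by omega)]
        obtain ⟨⟨q1, q2⟩, hq, e⟩ := Finset.mem_image.1 (h1 (k - 1 - i.val) (by omega)).2.2.2
        simp only [phi, Prod.mk.injEq] at e
        have hq2 := q2.2
        have e' : k - j.val = k - 1 - i.val := by omega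
        convert hq using 2
        · exact Fin.ext e.1.symm
        · refine Fin.ext ?_
          show m - 1 - cc (k - j.val) = q2.val
          rw [e']
          omega
      · simp only [dif_neg (show ¬ i.val < k by omega), if_pos h.2]
        exact hp

lemma hasCopy_iff {n m k : ℕ} (hk : 1 ≤ k) (F : Finset (Fin n × Fin m)) :
    HasCopy (veeLe (k + 1)) F ↔ ¬ Av 1 (k + 1) (F.image psi) := by
  unfold Av
  push Not
  constructor
  · rintro ⟨f, -, hF, hf⟩
    let σ := Tuple.sort fun i : Fin (k + 1) => (f (some i)).1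
    have hσ : Monotone ((fun i : Fin (k + 1) => (f (some i)).1) ∘ σ) := Tuple.monotone_sort _
    let g : ℕ → Fin n × Fin m := fun x => f (some (σ ⟨min x k, by omega⟩))
    refine ⟨psi (f none), Finset.mem_image_of_mem _ (hF none), fun x => (psi (g x)).1,
      fun x => (psi (g x)).2, ?_, ?_⟩
    · intro x _
      have h1 : f none ≤ g x := (hf _ _).1 (Or.inl rfl)
      obtain ⟨h2, h3⟩ := h1
      rw [Fin.le_def] at h2 h3
      refine ⟨?_, Nat.zero_le _, ?_, Finset.mem_image_of_mem _ (hF _)⟩
      · show n - 1 - (g x).1.val < n - 1 - (f none).1.val + 1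
        omega
      · show m - 1 - (g x).2.val < m - 1 - (f none).2.val + 1
        omega
    · intro x y hxy hy
      have hlt : (⟨min x k, by omega⟩ : Fin (k + 1)) < ⟨min y k, by omega⟩ := by
        show min x k < min y k
        omega
      have h1 : (g x).1 ≤ (g y).1 := hσ hlt.le
      have h2 : ¬ g x ≤ g y := fun h => by
        rcases (hf _ _).2 h with h' | h'
        · cases h'
        · exact hlt.ne (σ.injective (Option.some_injective _ h'))
      have h3 : ¬ g y ≤ g x := fun h => by
        rcases (hf _ _).2 h with h' | h'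
        · cases h'
        · exact hlt.ne' (σ.injective (Option.some_injective _ h'))
      rw [Prod.le_def, Fin.le_def, Fin.le_def] at h2 h3
      rw [Fin.le_def] at h1
      have := (g x).2.2
      have := (g y).1.2
      constructor
      · show n - 1 - (g y).1.val < n - 1 - (g x).1.val
        omega
      · show m - 1 - (g x).2.val < m - 1 - (g y).2.val
        omega
  · rintro ⟨a, ha, rr, cc, h1, h2⟩
    obtain ⟨p, hp, rfl⟩ := Finset.mem_image.1 ha
    have : ∀ i : Fin (k + 1), ∃ q ∈ F, psi q = (rr i.val, cc i.val) := fun i =>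
      Finset.mem_image.1 (h1 i.val i.2).2.2.2
    choose b hb1 hb2 using this
    have hb3 : ∀ i, n - 1 - (b i).1.val = rr i.val ∧ m - 1 - (b i).2.val = cc i.val := fun i => by
      simpa only [psi, Prod.mk.injEq] using hb2 i
    simp only [psi] at h1
    let f : Option (Fin (k + 1)) → Fin n × Fin m := fun o => Option.casesOn o p b
    have hord : ∀ x y, veeLe (k + 1) x y ↔ f x ≤ f y := by
      intro x y
      unfold veeLe
      rw [Prod.le_def, Fin.le_def, Fin.le_def]
      cases x with
      | none =>
        cases y with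
        | none => simp
        | some j =>
          have g1 := h1 j.val j.2
          have g2 := hb3 j
          have := (b j).1.2
          have := (b j).2.2
          have := p.1.2
          have := p.2.2
          simp only [true_or, true_iff]
          show p.1.val ≤ (b j).1.val ∧ p.2.val ≤ (b j).2.val
          omega
      | some i =>
        have hi := i.2
        have g2 := hb3 i
        have := (b i).1.2
        have := (b i).2.2
        cases y with
        | none =>
          simp only [reduceCtorEq, or_self, false_iff]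
          show ¬ ((b i).1.val ≤ p.1.val ∧ (b i).2.val ≤ p.2.val)
          by_cases h0 : i.val = 0
          · have g3 := h2 i.val 1 (by omega) (by omega)
            have g4 := h1 1 (by omega)
            omega
          · have g3 := h2 0 i.val (by omega) (by omega)
            have g4 := h1 0 (by omega)
            omega
        | some j =>
          have hj := j.2
          have g3 := hb3 j
          have := (b j).1.2
          have := (b j).2.2
          simp only [reduceCtorEq, false_or, Option.some.injEq]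
          show i = j ↔ (b i).1.val ≤ (b j).1.val ∧ (b i).2.val ≤ (b j).2.val
          constructor
          · rintro rfl
            exact ⟨le_rfl, le_rfl⟩
          · intro h
            refine Fin.ext ?_
            rcases lt_trichotomy i.val j.val with h' | h' | h'
            · have := h2 i.val j.val h' hj
              omega
            · exact h'
            · have := h2 j.val i.val h' hi
              omega
    refine ⟨f, fun x y hxy => ?_, fun o => ?_, hord⟩
    · rcases (hord x y).2 hxy.le with h | h
      · rcases (hord y x).2 hxy.ge with h' | h'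
        · rw [h, h']
        · exact h'.symm
      · exact h
    · cases o with
      | none => exact hp
      | some i => exact hb1 i

theorem result (s n m : ℕ) (hs : 2 ≤ s) :
    sat n m (J s) = ex n m (J s) ∧ ex n m (J s) = satStar n m (veeLe s) ∧
      satStar n m (veeLe s) = laStar n m (veeLe s) ∧
      laStar n m (veeLe s) = n * m - (n + 1 - s) * (m + 1 - s) := by
  obtain ⟨k, rfl⟩ : ∃ k, s = k + 1 := ⟨s - 1, by omega⟩
  have hk : 1 ≤ k := by omega
  obtain ⟨a1, a2⟩ := transfer (n := n) (m := m) (e := 0) (by omega) hk phi phi_inj phi_range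
    (fun A => Contains A (J (k + 1))) contains_iff
  obtain ⟨b1, b2⟩ := transfer (n := n) (m := m) (e := 1) le_rfl hk psi psi_inj psi_range
    (fun A => HasCopy (veeLe (k + 1)) A) (hasCopy_iff hk)
  unfold sat ex satStar laStar
  rw [a1, a2, b1, b2, Nat.add_sub_add_right, Nat.add_sub_add_right]
  exact ⟨rfl, rfl, rfl, rfl⟩

end Pool.Agent.Results.MP_eab1c6_co.FourEqual
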